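import Pool.Agent.H29.LG.Targets

set_option autoImplicit false

/-!
# MP_c65535_nt, all radicals, row TAME: a field with little ramification
-/

namespace Pool.Agent.H19.LG

open NumberField Height Finset Polynomial Pool.Agent.H24.RD Pool.Agent.H23.RDD
  Pool.Agent.H29.RQ Pool.Agent.H29.SX Pool.Agent.H29.LG

/-- the Galois correspondence for groups which contain the group of a finite extension -/
theorem tame_gal {F Ω : Type} [Field F] [Field Ω] [Algebra F Ω] [IsGalois F Ω]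
    (E0 : IntermediateField F Ω) [FiniteDimensional F E0] (S : Subgroup (Ω ≃ₐ[F] Ω))
    (hS : E0.fixingSubgroup ≤ S) : (IntermediateField.fixedField S).fixingSubgroup = S := by
  have h1 : IsOpen (S : Set (Ω ≃ₐ[F] Ω)) :=
    Subgroup.isOpen_mono hS (IntermediateField.fixingSubgroup_isOpen E0)
  exact InfiniteGalois.fixingSubgroup_fixedField ⟨S, Subgroup.isClosed_of_isOpen S h1⟩

/-- the automorphisms which agree on `E0` with one which fixes `β` -/
def tameS {F Ω : Type} [Field F] [Field Ω] [Algebra F Ω] (E0 : IntermediateField F Ω)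
    (hE0 : ∀ (τ : Ω ≃ₐ[F] Ω), ∀ z ∈ E0, τ z ∈ E0) (β : Ω) : Subgroup (Ω ≃ₐ[F] Ω) where
  carrier := {τ | ∃ τ' : Ω ≃ₐ[F] Ω, (∀ z ∈ E0, τ' z = τ z) ∧ τ' β = β}
  mul_mem' := by
    rintro s t ⟨s', hs, hsb⟩ ⟨t', ht, htb⟩
    refine ⟨s' * t', fun z hz => ?_, ?_⟩
    · rw [AlgEquiv.mul_apply, AlgEquiv.mul_apply, ht z hz, hs _ (hE0 t z hz)]
    · rw [AlgEquiv.mul_apply, htb, hsb]
  one_mem' := ⟨1, fun _ _ => rfl, rfl⟩
  inv_mem' := by
    rintro s ⟨s', hs, hsb⟩
    refine ⟨s'⁻¹, fun z hz => ?_, ?_⟩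
    · have h1 : s (s⁻¹ z) = z := by
        rw [← AlgEquiv.mul_apply, mul_inv_cancel, AlgEquiv.one_apply]
      calc s'⁻¹ z = s'⁻¹ (s (s⁻¹ z)) := by rw [h1]
        _ = s'⁻¹ (s' (s⁻¹ z)) := by rw [hs _ (hE0 s⁻¹ z hz)]
        _ = s⁻¹ z := by rw [← AlgEquiv.mul_apply, inv_mul_cancel, AlgEquiv.one_apply]
    · calc s'⁻¹ β = s'⁻¹ (s' β) := by rw [hsb]
        _ = β := by rw [← AlgEquiv.mul_apply, inv_mul_cancel, AlgEquiv.one_apply]

/-- the level fields are normal -/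
theorem tame_nor {F Ω : Type} [Field F] [Field Ω] [Algebra F Ω] {r : ℕ} (γ : Fin r → F)
    (N K : ℕ) (τ : Ω ≃ₐ[F] Ω) (z : Ω) (hz : z ∈ Lv F Ω γ N K) : τ z ∈ Lv F Ω γ N K := by
  have h1 : (Lv F Ω γ N K).map (τ : Ω →ₐ[F] Ω) ≤ Lv F Ω γ N K := by
    unfold Lv
    rw [IntermediateField.adjoin_map, IntermediateField.adjoin_le_iff]
    rintro _ ⟨w, hw, rfl⟩
    refine IntermediateField.subset_adjoin F _ ?_
    rcases hw with hw | ⟨i, hw⟩
    · left
      change (τ w) ^ N = 1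
      rw [← map_pow, hw, map_one]
    · right
      refine ⟨i, ?_⟩
      change (τ w) ^ K = _
      rw [← map_pow, hw, τ.commutes]
  exact h1 ⟨z, hz, rfl⟩

/-- the level of the tame part -/
theorem tame_div (p N K : ℕ) (hp : p.Prime) (hN : 0 < N) (hKN : K ∣ N) (hpK : ¬ p ∣ K)
    (hpN : p ∣ N) : K ∣ N / p ∧ 0 < N / p := by
  refine ⟨?_, Nat.div_pos (Nat.le_of_dvd hN hpN) hp.pos⟩
  have h1 : K ∣ p * (N / p) := by
    rw [Nat.mul_div_cancel' hpN]
    exact hKN
  have h2 : Nat.Coprime K p := ((Nat.Prime.coprime_iff_not_dvd hp).mpr hpK).symm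
  exact h2.dvd_of_dvd_mul_left h1

/-- a root of an integral power of `c` which is less than one -/
theorem tame_root (c y A L : ℝ) (e : ℕ) (n : ℤ) (hc : 0 < c) (hc1 : c < 1) (hy : 0 ≤ y)
    (hy1 : y < 1) (he : 0 < e) (hL : 0 < L) (hA : 0 ≤ A) (heA : ((e : ℝ) - 1) * L ≤ A)
    (hn : y ^ e = c ^ n) : y ≤ c ^ (L / (A + L)) := by
  have h1 : y ^ e < 1 := pow_lt_one₀ hy hy1 he.ne'
  have h2 : 1 ≤ n := by
    by_contra h
    push Not at h
    have h3 : n ≤ 0 := by omega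
    have h4 : (1 : ℝ) ≤ c ^ n := by
      have h5 : c ^ (0 : ℤ) ≤ c ^ n := zpow_le_zpow_right_of_le_one₀ hc hc1.le h3
      simpa using h5
    rw [hn] at h1
    linarith
  have h3 : y ^ e ≤ c := by
    rw [hn]
    have h5 : c ^ n ≤ c ^ (1 : ℤ) := zpow_le_zpow_right_of_le_one₀ hc hc1.le h2
    simpa using h5
  have he' : (0 : ℝ) < e := by exact_mod_cast he
  have h4 : y ≤ c ^ (1 / (e : ℝ)) := by
    have h5 : y = (y ^ e) ^ (1 / (e : ℝ)) := by
      rw [← Real.rpow_natCast, ← Real.rpow_mul hy, mul_one_div_cancel he'.ne', Real.rpow_one]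
    rw [h5]
    exact Real.rpow_le_rpow (pow_nonneg hy e) h3 (by positivity)
  refine h4.trans (Real.rpow_le_rpow_of_exponent_ge hc hc1.le ?_)
  rw [div_le_div_iff₀ (by linarith) he']
  nlinarith

/-- the norm of an element fixed by a subgroup -/
theorem tame_norm {F Ω : Type} [Field F] [Field Ω] [Algebra F Ω] [IsGalois F Ω]
    (E1 : IntermediateField F Ω) (B : Subgroup (Ω ≃ₐ[F] Ω))
    (he : B.relIndex E1.fixingSubgroup ≠ 0) (x : Ω)
    (hx : ∀ τ ∈ B, τ x = x) : ∃ (ι : Type) (_ : Fintype ι) (f : ι → Ω),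
      Fintype.card ι = B.relIndex E1.fixingSubgroup ∧ (∏ c, f c) ∈ E1 ∧
      ∀ c, ∃ τ : Ω ≃ₐ[F] Ω, (∀ z ∈ E1, τ z = z) ∧ f c = τ x := by
  classical
  let V := E1.fixingSubgroup
  have hfin : Finite (V ⧸ B.subgroupOf V) := by
    have h1 : (B.subgroupOf V).index ≠ 0 := he
    have h2 : (B.subgroupOf V).FiniteIndex := ⟨h1⟩
    exact Subgroup.finite_quotient_of_finiteIndex
  let ft : Fintype (V ⧸ B.subgroupOf V) := Fintype.ofFinite _
  let f : V ⧸ B.subgroupOf V → Ω := Quotient.lift (fun τ : V => (τ : Ω ≃ₐ[F] Ω) x) (by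
    intro a b hab
    have h1 : a⁻¹ * b ∈ B.subgroupOf V := QuotientGroup.leftRel_apply.mp hab
    have h2 : ((a⁻¹ * b : V) : Ω ≃ₐ[F] Ω) ∈ B := h1
    have h3 := hx _ h2
    have h4 : ((a : V) : Ω ≃ₐ[F] Ω) (((a⁻¹ * b : V) : Ω ≃ₐ[F] Ω) x) =
        ((b : V) : Ω ≃ₐ[F] Ω) x := by
      rw [← AlgEquiv.mul_apply]
      congr 1
      push_cast
      group
    rw [h3] at h4
    exact h4)
  have hfm : ∀ τ : V, f (QuotientGroup.mk τ) = (τ : Ω ≃ₐ[F] Ω) x := fun τ => rfl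
  refine ⟨V ⧸ B.subgroupOf V, ft, f, ?_, ?_, ?_⟩
  · rw [← Nat.card_eq_fintype_card]
    rfl
  · have h1 : (∏ c, f c) ∈ IntermediateField.fixedField V := by
      rw [IntermediateField.mem_fixedField_iff]
      intro σ hσ
      rw [map_prod]
      have h2 : ∀ c, σ (f c) = f ((⟨σ, hσ⟩ : V) • c) := by
        intro c
        induction c using QuotientGroup.induction_on with
        | H τ =>
          rw [hfm, MulAction.Quotient.smul_mk, hfm]
          rfl
      simp only [h2]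
      exact Equiv.prod_comp (MulAction.toPerm (⟨σ, hσ⟩ : V)) f
    have h2 : IntermediateField.fixedField V = E1 := InfiniteGalois.fixedField_fixingSubgroup E1
    rw [← h2]
    exact h1
  · intro c
    induction c using QuotientGroup.induction_on with
    | H τ =>
      refine ⟨τ, ?_, hfm τ⟩
      have h1 := τ.2
      rw [IntermediateField.mem_fixingSubgroup_iff] at h1
      exact h1

/-- the estimate at one place -/
theorem tame_ram (h2 : T_VIS) (h3 : T_VCL) (h4 : T_UNK) (F Ω : Type) [Field F] [NumberField F]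
    [Field Ω] [CharZero Ω] [Algebra F Ω] [IsAlgClosed Ω] [Algebra.IsAlgebraic F Ω]
    [IsGalois F Ω] (r : ℕ)
    (γ : Fin r → F) (hγ : ∀ i, γ i ≠ 0) (p N K : ℕ) (hN : 0 < N) (hKN : K ∣ N)
    (hgood : GoodP F γ p) (hpK : ¬ p ∣ K) (hpN2 : ¬ p ^ 2 ∣ N) (B : Subgroup (Ω ≃ₐ[F] Ω)) (A : ℝ)
    (hA : 0 ≤ A)
    (hB : p ∣ N → (Lv F Ω γ N K).fixingSubgroup ≤ B ∧
      B ≤ (Lv F Ω γ (N / p) K).fixingSubgroup ∧
      ((B.relIndex (Lv F Ω γ (N / p) K).fixingSubgroup : ℝ) - 1) * Real.log p ≤ A)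
    (M : IntermediateField F Ω) [NumberField M] (hM : Lv F Ω γ N K ≤ M) (w : FinitePlace M)
    (hw : w.1 (p : M) < 1) (x : M) (hx : (x : Ω) ∈ Lv F Ω γ N K) (hx0 : x ≠ 0)
    (hxB : p ∣ N → ∀ τ ∈ B, τ (x : Ω) = x)
    (hx1 : w.1 x < 1) : w.1 x ≤ w.1 (p : M) ^ (Real.log p / (A + Real.log p)) := by
  have hp : p.Prime := hgood.1
  have hp0 : (p : M) ≠ 0 := by
    have := hp.ne_zero
    exact_mod_cast this
  have hc : 0 < w.1 (p : M) := w.1.pos hp0
  have hL : 0 < Real.log p := Real.log_pos (by exact_mod_cast hp.one_lt)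
  by_cases hpN : p ∣ N
  · obtain ⟨hB1, hB2, hB3⟩ := hB hpN
    obtain ⟨hKN', hN'⟩ := tame_div p N K hp hN hKN hpK hpN
    obtain ⟨v1, v2, -, v4⟩ := h3 F Ω r γ hγ p hp N K hN hKN hpK hpN
    have he : B.relIndex (Lv F Ω γ (N / p) K).fixingSubgroup ≠ 0 := by
      intro h
      have h5 := Subgroup.relIndex_dvd_of_le_left (L := (Lv F Ω γ (N / p) K).fixingSubgroup) hB1
      rw [h, zero_dvd_iff] at h5
      omega
    obtain ⟨ι, hι, f, hcard, hprod, hf⟩ := tame_norm (Lv F Ω γ (N / p) K) B he (x : Ω)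
      (hxB hpN)
    have hle : Lv F Ω γ (N / p) K ≤ Lv F Ω γ N K := by
      unfold Lv
      rw [IntermediateField.adjoin_le_iff]
      rintro z (hz | hz)
      · refine IntermediateField.subset_adjoin F _ (Or.inl ?_)
        rw [← Nat.div_mul_cancel hpN, pow_mul, hz, one_pow]
      · exact IntermediateField.subset_adjoin F _ (Or.inr hz)
    have hfM : ∀ c, f c ∈ M := by
      intro c
      obtain ⟨τ, -, e2⟩ := hf c
      rw [e2]
      exact hM (tame_nor γ N K τ _ hx)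
    let f' : ι → M := fun c => ⟨f c, hfM c⟩
    have hwf : ∀ c, w.1 (f' c) = w.1 x := by
      intro c
      obtain ⟨τ, e1, e2⟩ := hf c
      exact (h2 F Ω r γ hγ p hgood N K hN hKN hpK hpN τ e1 M hM w hw x (f' c) hx e2).1
    let y' : M := ∏ c, f' c
    have hy' : w.1 y' = w.1 x ^ (B.relIndex (Lv F Ω γ (N / p) K).fixingSubgroup) := by
      change w.1 (∏ c, f' c) = _
      rw [map_prod]
      simp only [hwf]
      rw [prod_const, card_univ, hcard]
    have hy'Ω : (y' : Ω) ∈ Lv F Ω γ (N / p) K := by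
      have e1 : (y' : Ω) = ∏ c, f c := by
        change ((∏ c, f' c : M) : Ω) = _
        have e2 : algebraMap M Ω (∏ c, f' c) = ∏ c, f c := by
          rw [map_prod]
          exact prod_congr rfl fun c _ => rfl
        exact e2
      rw [e1]
      exact hprod
    have hy'0 : y' ≠ 0 := by
      refine prod_ne_zero_iff.mpr fun c _ => ?_
      intro h
      have e1 := hwf c
      rw [h, map_zero] at e1
      exact hx0 ((map_eq_zero w.1).mp e1.symm)
    have hpN' : ¬ p ∣ N / p := by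
      intro h
      apply hpN2
      rw [← Nat.div_mul_cancel hpN, pow_two]
      exact mul_dvd_mul_right h p
    obtain ⟨n, hn⟩ := h4 F Ω r γ hγ p hgood (N / p) K hN' hKN' hpN' M (hle.trans hM) w hw y' hy'Ω
      hy'0
    rw [hy'] at hn
    exact tame_root _ _ A _ _ n hc hw (w.1.nonneg x) hx1 (Nat.pos_of_ne_zero he) hL hA hB3 hn
  · obtain ⟨n, hn⟩ := h4 F Ω r γ hγ p hgood N K hN hKN hpN M hM w hw x hx hx0
    refine tame_root _ _ A _ 1 n hc hw (w.1.nonneg x) hx1 one_pos hL hA ?_ ?_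
    · push_cast
      linarith
    · rw [pow_one, hn]

theorem pf_TAME (h1 : T_LVB) (h2 : T_VIS) (h3 : T_VCL) (h4 : T_UNK) (h5 : T_EXTP)
    (h6 : T_TAMS) : T_TAME := by
  intro F Ω _ _ _ _ _ _ _ r γ hγ P N K d hN hKN hd hP α hα hh
  classical
  have hAC : IsAlgClosure F Ω := ⟨inferInstance, inferInstance⟩
  have hnorm : Normal F Ω := IsAlgClosure.normal F Ω
  have hgal : IsGalois F Ω := ⟨⟩
  have hK : 0 < K := Nat.pos_of_dvd_of_pos hKN hN
  obtain ⟨hE0f, -, -, -, -, -⟩ := h1 F Ω r γ hγ N K hN hK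
  obtain ⟨β, g, B, hβ, hg, he, hC, hR, hB⟩ := h6 F Ω r γ hγ (P.filter (fun p => p ∣ N)) N K d hN
    hKN hd (fun p hp => by
      obtain ⟨a1, a2⟩ := Finset.mem_filter.mp hp
      obtain ⟨b1, b2, b3⟩ := hP p a1
      exact ⟨b1, b2, a2, b3⟩) α hα (fun p hp => hh p (Finset.mem_filter.mp hp).1)
  have hnor : ∀ (τ : Ω ≃ₐ[F] Ω), ∀ z ∈ Lv F Ω γ N K, τ z ∈ Lv F Ω γ N K := tame_nor γ N K
  set E0 := Lv F Ω γ N K with hE0
  let S : Subgroup (Ω ≃ₐ[F] Ω) :=
    E0.fixingSubgroup ⊔ ⨆ p : {p // p ∈ P.filter (fun p => p ∣ N)}, B p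
  have hS0 : E0.fixingSubgroup ≤ S := le_sup_left
  have hSB : ∀ p, p ∈ P → p ∣ N → B p ≤ S := by
    intro p hp hpN
    exact (le_iSup (fun p : {p // p ∈ P.filter (fun p => p ∣ N)} => B p)
      ⟨p, Finset.mem_filter.mpr ⟨hp, hpN⟩⟩).trans le_sup_right
  have hSle : ∀ T : Subgroup (Ω ≃ₐ[F] Ω), E0.fixingSubgroup ≤ T →
      (∀ p, p ∈ P → p ∣ N → B p ≤ T) → S ≤ T := by
    intro T hT1 hT2
    refine sup_le hT1 (iSup_le ?_)
    rintro ⟨p, hp⟩
    obtain ⟨a1, a2⟩ := Finset.mem_filter.mp hp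
    exact hT2 p a1 a2
  let E : IntermediateField F Ω := IntermediateField.fixedField S
  have hES : E.fixingSubgroup = S := tame_gal E0 S hS0
  have hEmem : ∀ z : Ω, z ∈ E ↔ ∀ σ ∈ S, σ z = z := by
    intro z
    exact IntermediateField.mem_fixedField_iff S z
  have hEE0 : E ≤ E0 := by
    have e1 : IntermediateField.fixedField E0.fixingSubgroup = E0 :=
      InfiniteGalois.fixedField_fixingSubgroup E0
    rw [← e1]
    exact IntermediateField.fixedField_antitone hS0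
  have hstab : ∀ z : Ω, z ∈ E0 → (∀ p, p ∈ P → p ∣ N → ∀ σ ∈ B p, σ z = z) → z ∈ E := by
    intro z hz hzB
    rw [hEmem]
    have e1 : S ≤ MulAction.stabilizer (Ω ≃ₐ[F] Ω) z := by
      refine hSle _ ?_ ?_
      · intro σ hσ
        rw [MulAction.mem_stabilizer_iff, AlgEquiv.smul_def]
        rw [IntermediateField.mem_fixingSubgroup_iff] at hσ
        exact hσ z hz
      · intro p hp hpN σ hσ
        rw [MulAction.mem_stabilizer_iff, AlgEquiv.smul_def]
        exact hzB p hp hpN σ hσ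
    intro σ hσ
    have e2 := e1 hσ
    rw [MulAction.mem_stabilizer_iff, AlgEquiv.smul_def] at e2
    exact e2
  have hconj : ∀ σ : Ω ≃ₐ[F] Ω, (∀ z ∈ E, σ z = z) → ∃ σ₂ : Ω ≃ₐ[F] Ω,
      (∀ z ∈ E0, σ₂ z = z) ∧ σ₂ β = σ β := by
    intro σ hσ
    have e1 : σ ∈ S := by
      rw [← hES, IntermediateField.mem_fixingSubgroup_iff]
      exact hσ
    have e2 : S ≤ tameS E0 hnor β := by
      refine hSle _ ?_ ?_
      · intro τ hτ
        rw [IntermediateField.mem_fixingSubgroup_iff] at hτ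
        exact ⟨1, fun z hz => (hτ z hz).symm, rfl⟩
      · intro p hp hpN τ hτ
        exact (hB p (Finset.mem_filter.mpr ⟨hp, hpN⟩)).2.2.2 τ hτ
    obtain ⟨h', e3, e4⟩ := e2 e1
    have e5 : ∀ z, h' (h'⁻¹ z) = z := by
      intro z
      rw [← AlgEquiv.mul_apply, mul_inv_cancel, AlgEquiv.one_apply]
    refine ⟨σ * h'⁻¹, fun z hz => ?_, ?_⟩
    · rw [AlgEquiv.mul_apply, ← e3 _ (hnor h'⁻¹ z hz), e5]
    · rw [AlgEquiv.mul_apply]
      congr 1
      calc h'⁻¹ β = h'⁻¹ (h' β) := by rw [e4]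
        _ = β := by rw [← AlgEquiv.mul_apply, inv_mul_cancel, AlgEquiv.one_apply]
  refine ⟨β, g, E, hβ, hg, he, hEE0, ?_, ?_, ?_, ?_, ?_⟩
  · -- the bottom level field
    intro z hz
    obtain ⟨-, -, -, -, -, hmon⟩ := h1 F Ω r γ hγ K K hK hK
    refine hstab z (hmon N K hKN dvd_rfl hKN hN hz) ?_
    intro p hp hpN σ hσ
    obtain ⟨a1, a2, a3⟩ := hP p hp
    obtain ⟨hKN', hN'⟩ := tame_div p N K a1.1 hN hKN a2 hpN
    have e1 := (hB p (Finset.mem_filter.mpr ⟨hp, hpN⟩)).2.1 hσ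
    rw [IntermediateField.mem_fixingSubgroup_iff] at e1
    exact e1 z (hmon (N / p) K hKN' dvd_rfl hKN' hN' hz)
  · -- normality
    intro τ z hz
    refine hstab _ (hnor τ z (hEE0 hz)) ?_
    intro p hp hpN σ hσ
    obtain ⟨a1, a2, a3⟩ := hP p hp
    obtain ⟨-, -, -, v4⟩ := h3 F Ω r γ hγ p a1.1 N K hN hKN a2 hpN
    rw [v4 σ ((hB p (Finset.mem_filter.mpr ⟨hp, hpN⟩)).2.1 hσ) τ z (hEE0 hz)]
    rw [(hEmem z).mp hz σ (hSB p hp hpN hσ)]
  · obtain ⟨s, hs, hs2⟩ := hC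
    refine ⟨s, hs, fun σ hσ => ?_⟩
    obtain ⟨σ₂, e1, e2⟩ := hconj σ hσ
    rw [← e2]
    exact hs2 σ₂ e1
  · intro σ hσ k hk hpow
    obtain ⟨σ₂, e1, e2⟩ := hconj σ hσ
    rw [← e2] at hpow ⊢
    exact hR σ₂ e1 k hk hpow
  · intro p hp M hMnf hEM w hw x hxE hx1
    obtain ⟨hgood, hpK, hpN2⟩ := hP p hp
    have hpp : p.Prime := hgood.1
    by_cases hx0 : x = 0
    · rw [hx0, map_zero]
      exact Real.rpow_nonneg (w.1.nonneg _) _
    have hMf : FiniteDimensional F M := Module.Finite.of_restrictScalars_finite ℚ F M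
    let M' : IntermediateField F Ω := M ⊔ E0
    have hM'f : FiniteDimensional F M' := IntermediateField.finiteDimensional_sup M E0
    have hM'nf : NumberField M' := NumberField.of_module_finite F M'
    let alg : Algebra M M' :=
      (IntermediateField.inclusion (le_sup_left : M ≤ M ⊔ E0)).toRingHom.toAlgebra
    obtain ⟨w', k, hk, hw'⟩ := h5 M M' w
    have hx' : w'.1 (algebraMap M M' x) = w.1 x ^ k := hw' x
    have hp' : w'.1 (p : M') = w.1 (p : M) ^ k := by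
      have e0 : algebraMap M M' (p : M) = (p : M') := map_natCast (algebraMap M M') p
      rw [← hw', e0]
    have hlog : 0 ≤ 2 * Real.log (d * p) + 1 := by
      have e1 : (1 : ℝ) ≤ (d : ℝ) * p := by
        have e2 : 1 ≤ d * p := Nat.mul_pos hd hpp.pos
        exact_mod_cast e2
      have e3 := Real.log_nonneg e1
      linarith
    have hp0 : (p : M) ≠ 0 := by
      have := hpp.ne_zero
      exact_mod_cast this
    have hwp : 0 < w.1 (p : M) := w.1.pos hp0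
    have hxx : ((algebraMap M M' x : M') : Ω) = (x : Ω) := rfl
    have key := tame_ram h2 h3 h4 F Ω r γ hγ p N K hN hKN hgood hpK hpN2 (B p)
      (2 * Real.log (d * p) + 1) hlog
      (fun hpN => by
        obtain ⟨a1, a2, a3, -⟩ := hB p (Finset.mem_filter.mpr ⟨hp, hpN⟩)
        exact ⟨a1, a2, a3⟩)
      M' le_sup_right w' (by rw [hp']; exact Real.rpow_lt_one hwp.le hw hk)
      (algebraMap M M' x) (by rw [hxx]; exact hEE0 hxE)
      (by
        intro h
        exact hx0 ((map_eq_zero_iff _ (algebraMap M M').injective).mp h))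
      (fun hpN τ hτ => by
        rw [hxx]
        exact (hEmem _).mp hxE τ (hSB p hp hpN hτ))
      (by rw [hx']; exact Real.rpow_lt_one (w.1.nonneg x) hx1 hk)
    rw [hx', hp', ← Real.rpow_mul hwp.le, mul_comm k, Real.rpow_mul hwp.le] at key
    exact (Real.rpow_le_rpow_iff (w.1.nonneg x) (Real.rpow_nonneg hwp.le _) hk).mp key

end Pool.Agent.H19.LG
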