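import Pool.Agent.H29.LG.Targets

set_option autoImplicit false

/-!
# MP_c65535_nt, all radicals, row TAMS: the tame case at several primes
-/

namespace Pool.Agent.H19.LG

open NumberField Height Finset Polynomial Pool.Agent.H24.RD Pool.Agent.H23.RDD
  Pool.Agent.H29.RQ Pool.Agent.H29.SX Pool.Agent.H29.LG

/-- an element of the division group times a root of unity -/
theorem tams_dv {F Ω : Type} [Field F] [Field Ω] [Algebra F Ω] {r : ℕ} (γ : Fin r → F)
    (g η : Ω) (hg : g ∈ Dv F Ω γ) (p : ℕ) (hp : 0 < p) (hη : η ^ p = 1) :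
    η⁻¹ * g ∈ Dv F Ω γ := by
  obtain ⟨hg0, n, hn, x, hx⟩ := hg
  have hη0 : η ≠ 0 := by
    intro h
    rw [h, zero_pow hp.ne'] at hη
    exact zero_ne_one hη
  refine ⟨mul_ne_zero (inv_ne_zero hη0) hg0, n * p, Nat.mul_pos hn hp, fun i => x i * p, ?_⟩
  have e1 : η⁻¹ ^ (n * p) = 1 := by
    rw [inv_pow, mul_comm n p, pow_mul, hη, one_pow, inv_one]
  rw [mul_pow, e1, one_mul, pow_mul, hx, ← Finset.prod_pow]
  refine Finset.prod_congr rfl fun i _ => ?_
  rw [zpow_mul, zpow_natCast]

theorem pf_TAMS (h1 : T_LVB) (h2 : T_TAM) : T_TAMS := by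
  intro F Ω _ _ _ _ _ _ _ r γ hγ P N K d hN hKN hd hP α hα hh
  induction P using Finset.induction_on with
  | empty =>
    obtain ⟨β, hβ, hC, hR, g, hg, he⟩ := hα
    exact ⟨β, g, fun _ => ⊥, hβ, hg, he, hC, hR, fun p hp => absurd hp (Finset.notMem_empty p)⟩
  | insert p P hpP ih =>
    obtain ⟨β, g, B, hβ, hg, he, hC, hR, hB⟩ := ih
      (fun q hq => hP q (Finset.mem_insert_of_mem hq))
      (fun q hq => hh q (Finset.mem_insert_of_mem hq))
    obtain ⟨hgood, hpK, hpN, hpN2⟩ := hP p (Finset.mem_insert_self p P)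
    have hhp := hh p (Finset.mem_insert_self p P)
    rw [he] at hhp
    obtain ⟨η, Bp, hη, hB1, hB2, hB3, hB4⟩ :=
      h2 F Ω r γ hγ p hgood N K d hN hKN hpK hpN hpN2 hd β g hβ hC hR hg hhp
    have hp : p.Prime := hgood.1
    have hη0 : η ≠ 0 := by
      intro h
      rw [h, zero_pow hp.ne_zero] at hη
      exact zero_ne_one hη
    have hηm : ∀ m : ℕ, p ∣ m → η ∈ Lv F Ω γ m K := by
      intro m hm
      refine IntermediateField.subset_adjoin F _ (Or.inl ?_)
      obtain ⟨k, rfl⟩ := hm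
      rw [pow_mul, hη, one_pow]
    refine ⟨β * η, η⁻¹ * g, fun q => if q = p then Bp else B q, mul_ne_zero hβ hη0,
      tams_dv γ g η hg p hp.pos hη, ?_, ?_, ?_, ?_⟩
    · rw [he, mul_assoc, ← mul_assoc η, mul_inv_cancel₀ hη0, one_mul]
    · obtain ⟨s, hs, hσ⟩ := hC
      classical
      refine ⟨s.image (fun z => z * η), Finset.card_image_le.trans hs, fun σ h => ?_⟩
      rw [map_mul, h η (hηm N hpN)]
      exact Finset.mem_image_of_mem _ (hσ σ h)
    · intro σ h k hk hpow
      rw [map_mul, h η (hηm N hpN)] at hpow ⊢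
      rw [mul_pow, mul_pow] at hpow
      rw [hR σ h k hk (mul_right_cancel₀ (pow_ne_zero k hη0) hpow)]
    · intro q hq
      by_cases hqp : q = p
      · subst hqp
        simp only [if_true]
        exact ⟨hB1, hB2, hB3, hB4⟩
      · simp only [if_neg hqp]
        have hqP : q ∈ P := (Finset.mem_insert.mp hq).resolve_left hqp
        obtain ⟨c1, c2, c3, c4⟩ := hB q hqP
        obtain ⟨hqgood, -, hqN, -⟩ := hP q hq
        have hq' : q.Prime := hqgood.1
        refine ⟨c1, c2, c3, fun τ hτ => ?_⟩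
        obtain ⟨τ', e1, e2⟩ := c4 τ hτ
        refine ⟨τ', e1, ?_⟩
        have hpq : p ∣ N / q := by
          have h3 : p ∣ q * (N / q) := by
            rw [Nat.mul_div_cancel' hqN]
            exact hpN
          rcases hp.dvd_mul.mp h3 with h4 | h4
          · exact absurd ((Nat.prime_dvd_prime_iff_eq hp hq').mp h4).symm hqp
          · exact h4
        have e3 : τ η = η := by
          have h5 := c2 hτ
          rw [IntermediateField.mem_fixingSubgroup_iff] at h5
          exact h5 η (hηm _ hpq)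
        rw [map_mul, e2, e1 η (hηm N hpN), e3]

end Pool.Agent.H19.LG
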